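import Mathlib

namespace Pool.Agent.Results.MP_a93e77_co.NotStronglyRegular

variable {V : Type}

/-- `P` is an isomorphism-permutation of `G`: an isomorphism from `G` onto its complement. -/
def IsoPerm (G : SimpleGraph V) (P : Equiv.Perm V) : Prop :=
  ∀ u v, u ≠ v → (G.Adj u v ↔ ¬ G.Adj (P u) (P v))

/-- `G` is self-complementary. -/
def SelfComplementary (G : SimpleGraph V) : Prop := ∃ P, IsoPerm G P

/-- `F(G)`: the vertices fixed by some isomorphism-permutation. -/
def F (G : SimpleGraph V) : Set V := {v | ∃ P, IsoPerm G P ∧ P v = v}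

/-- `N(G)`: the edges whose ends are consecutive in a cycle of some isomorphism-permutation. -/
def N (G : SimpleGraph V) : Set (Sym2 V) :=
  {e | ∃ u v, e = s(u, v) ∧ G.Adj u v ∧ ∃ P, IsoPerm G P ∧ (P u = v ∨ P v = u)}

/-- `G` is regular. -/
def Regular [Fintype V] (G : SimpleGraph V) : Prop :=
  open Classical in ∃ d, ∀ v, (Finset.univ.filter fun u => G.Adj v u).card = d

/-- The number of common neighbours. -/
noncomputable def common [Fintype V] (G : SimpleGraph V) (u v : V) : ℕ :=
  open Classical in (Finset.univ.filter fun w => G.Adj u w ∧ G.Adj v w).card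

/-- `G` is strongly regular: it is regular, every edge lies in the same number of triangles and
every two distinct nonadjacent vertices have the same number of common neighbours. -/
def StronglyRegular [Fintype V] (G : SimpleGraph V) : Prop :=
  Regular G ∧ (∃ l, ∀ u v, G.Adj u v → common G u v = l) ∧
    (∃ m, ∀ u v, u ≠ v → ¬ G.Adj u v → common G u v = m)

/-- the circulant graph on `ℤ/13` with connection set `{±1, ±2, ±4}` -/
def C : SimpleGraph (ZMod 13) where
  Adj x y := y - x = 1 ∨ x - y = 1 ∨ y - x = 2 ∨ x - y = 2 ∨ y - x = 4 ∨ x - y = 4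
  symm := ⟨fun x y h => by tauto⟩
  loopless := ⟨fun x h => by
    simp only [sub_self] at h
    revert h
    decide⟩

instance : DecidableRel C.Adj := fun x y =>
  inferInstanceAs (Decidable (y - x = 1 ∨ x - y = 1 ∨ y - x = 2 ∨ x - y = 2 ∨ y - x = 4 ∨
    x - y = 4))

/-- `x ↦ 5 x + c` -/
def P (c : ZMod 13) : Equiv.Perm (ZMod 13) where
  toFun x := 5 * x + c
  invFun x := 8 * (x - c)
  left_inv x := by
    have : (8 : ZMod 13) * 5 = 1 := by decide
    calc 8 * (5 * x + c - c) = (8 * 5) * x := by ring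
      _ = x := by rw [this, one_mul]
  right_inv x := by
    have : (5 : ZMod 13) * 8 = 1 := by decide
    calc 5 * (8 * (x - c)) + c = (5 * 8) * (x - c) + c := by ring
      _ = x := by rw [this, one_mul]; ring

lemma isoP (c : ZMod 13) : IsoPerm C (P c) := by
  have h : ∀ d : ZMod 13, d ≠ 0 → ((d = 1 ∨ -d = 1 ∨ d = 2 ∨ -d = 2 ∨ d = 4 ∨ -d = 4) ↔
      ¬ (5 * d = 1 ∨ -(5 * d) = 1 ∨ 5 * d = 2 ∨ -(5 * d) = 2 ∨ 5 * d = 4 ∨ -(5 * d) = 4)) := by
    decide
  intro u v huv
  have h1 := h (v - u) (sub_ne_zero.2 huv.symm)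
  have e1 : -(v - u) = u - v := by ring
  have e2 : 5 * (v - u) = P c v - P c u := by
    show _ = (5 * v + c) - (5 * u + c)
    ring
  have e3 : -(P c v - P c u) = P c u - P c v := by ring
  rw [e2, e1, e3] at h1
  exact h1

theorem result : ∃ G : SimpleGraph (ZMod 13), Regular G ∧ SelfComplementary G ∧
    F G = Set.univ ∧ N G = G.edgeSet ∧ ¬ StronglyRegular G := by
  classical
  refine ⟨C, ⟨6, ?_⟩, ⟨P 0, isoP 0⟩, ?_, ?_, ?_⟩
  · have h : ∀ v : ZMod 13, (Finset.univ.filter fun u => C.Adj v u).card = 6 := by decide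
    intro v
    rw [← h v]
    apply congrArg
    ext u
    simp only [Finset.mem_filter]
  · ext v
    simp only [Set.mem_univ, iff_true]
    exact ⟨P (v - 5 * v), isoP _, by show 5 * v + (v - 5 * v) = v; ring⟩
  · ext e
    constructor
    · rintro ⟨u, v, rfl, h, _⟩
      exact h
    · intro he
      induction e with
      | _ u v =>
        exact ⟨u, v, rfl, he, P (v - 5 * u), isoP _, Or.inl (by
          show 5 * u + (v - 5 * u) = v; ring)⟩
  · rintro ⟨_, ⟨l, hl⟩, _⟩
    have hc : ∀ u v : ZMod 13, common C u v =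
        (Finset.univ.filter fun w => C.Adj u w ∧ C.Adj v w).card := by
      intro u v
      unfold common
      apply congrArg
      ext w
      simp only [Finset.mem_filter]
    have h1 := hl 0 1 (by decide)
    have h2 := hl 0 2 (by decide)
    rw [hc] at h1 h2
    have d1 : (Finset.univ.filter fun w : ZMod 13 => C.Adj 0 w ∧ C.Adj 1 w).card = 2 := by decide
    have d2 : (Finset.univ.filter fun w : ZMod 13 => C.Adj 0 w ∧ C.Adj 2 w).card = 3 := by decide
    have e1 : (Finset.univ.filter fun w : ZMod 13 => C.Adj 0 w ∧ C.Adj 1 w).card = l := by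
      rw [← h1]
    have e2 : (Finset.univ.filter fun w : ZMod 13 => C.Adj 0 w ∧ C.Adj 2 w).card = l := by
      rw [← h2]
    omega

end Pool.Agent.Results.MP_a93e77_co.NotStronglyRegular
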